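import Pool.Agent.MP_22d5c4_co.Fin

namespace Pool.Agent.Results.MP_22d5c4_co.Full

/-- planar integral point sets with `n` points, not all on one line -/
def Fam (n : ℕ) : Set (Finset (EuclideanSpace ℝ (Fin 2))) :=
  {M | M.card = n ∧ (∀ P ∈ M, ∀ Q ∈ M, ∃ z : ℤ, dist P Q = (z : ℝ)) ∧
    ¬ Collinear ℝ (M : Set (EuclideanSpace ℝ (Fin 2)))}

/-- the least diameter `d(2,n)` -/
noncomputable def dmin (n : ℕ) : ℝ :=
  sInf ((fun M : Finset (EuclideanSpace ℝ (Fin 2)) =>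
    Metric.diam (M : Set (EuclideanSpace ℝ (Fin 2)))) '' Fam n)

theorem result : ∀ n : ℕ, 6 ≤ n → ∀ M ∈ Fam n,
    Metric.diam (M : Set (EuclideanSpace ℝ (Fin 2))) = dmin n →
      ¬ ∃ P ∈ M, ∃ Q ∈ M, dist P Q = 1 := by
  rintro n hn M ⟨hcard, hint, hcol⟩ hopt ⟨P, hP, Q, hQ, hPQ⟩
  obtain ⟨M', h1, h2, h3, h4⟩ :=
    Pool.Agent.MP_22d5c4_co.K.better M (by omega) hint hcol hP hQ hPQ
  have hM' : M' ∈ Fam n := ⟨by omega, h2, h3⟩
  have hbdd : BddBelow ((fun M : Finset (EuclideanSpace ℝ (Fin 2)) =>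
      Metric.diam (M : Set (EuclideanSpace ℝ (Fin 2)))) '' Fam n) :=
    ⟨0, by rintro _ ⟨N, -, rfl⟩; exact Metric.diam_nonneg⟩
  have h5 : dmin n ≤ Metric.diam (M' : Set (EuclideanSpace ℝ (Fin 2))) :=
    csInf_le hbdd ⟨M', hM', rfl⟩
  linarith

end Pool.Agent.Results.MP_22d5c4_co.Full
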