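import Pool.Agent.MP_22d5c4_co.Geo

namespace Pool.Agent.Results.MP_22d5c4_co.LargeN

open Pool.Agent.MP_22d5c4_co

/-- planar integral point sets with `n` points, not all on one line -/
def Fam (n : ℕ) : Set (Finset (EuclideanSpace ℝ (Fin 2))) :=
  {M | M.card = n ∧ (∀ P ∈ M, ∀ Q ∈ M, ∃ z : ℤ, dist P Q = (z : ℝ)) ∧
    ¬ Collinear ℝ (M : Set (EuclideanSpace ℝ (Fin 2)))}

/-- the least diameter `d(2,n)` -/
noncomputable def dmin (n : ℕ) : ℝ :=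
  sInf ((fun M : Finset (EuclideanSpace ℝ (Fin 2)) =>
    Metric.diam (M : Set (EuclideanSpace ℝ (Fin 2)))) '' Fam n)

theorem result : ∀ K : ℝ, ∃ n0 : ℕ, ∀ n : ℕ, n0 ≤ n → ∀ M ∈ Fam n,
    (∃ P ∈ M, ∃ Q ∈ M, dist P Q = 1) →
      K * dmin n < Metric.diam (M : Set (EuclideanSpace ℝ (Fin 2))) := by
  intro K
  obtain ⟨C, hC⟩ := exists_nat_gt (8 * max K 1)
  have hK1 : 1 ≤ max K 1 := le_max_right _ _
  have hC1 : 1 ≤ C := by
    have : (1 : ℝ) ≤ C := by linarith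
    exact_mod_cast this
  obtain ⟨X0, hX0⟩ := nt_main C hC1
  refine ⟨X0 + 3, fun n hn M hM ⟨P, hP, Q, hQ, hPQ⟩ => ?_⟩
  obtain ⟨hcard, hint, hcol⟩ := hM
  set D := Metric.diam (M : Set (EuclideanSpace ℝ (Fin 2))) with hDdef
  have hD : ∀ R ∈ M, ∀ S ∈ M, dist R S ≤ D := fun R hR S hS =>
    Metric.dist_le_diam_of_mem M.finite_toSet.isBounded hR hS
  have hD1 : 1 ≤ D := hPQ ▸ hD P hP Q hQ
  obtain ⟨A, S, hA, hS1, hS⟩ := structure_lemma M hint hcol hP hQ hPQ D hD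
  set X := ⌊4 * D⌋₊ with hXdef
  have hS' : ∀ u ∈ S, u ∣ A ∧ u ≤ X ∧ A / u ≤ X := fun u hu =>
    ⟨(hS u hu).1, Nat.le_floor (hS u hu).2.1, Nat.le_floor (hS u hu).2.2⟩
  have hSX : S.card ≤ X := by
    calc S.card ≤ (Finset.Icc 1 X).card := Finset.card_le_card fun u hu =>
          Finset.mem_Icc.2 ⟨Nat.pos_of_dvd_of_pos (hS' u hu).1 hA.pos, (hS' u hu).2.1⟩
      _ = X := by simp
  obtain ⟨B, S', hB, hle, hS'B⟩ := hX0 A X S hA (by omega) hS'
    (Finset.card_pos.1 (by omega))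
  obtain ⟨S'', hsub, hcard''⟩ := Finset.exists_subset_card_eq hle
  obtain ⟨M', hM1, hM2, hM3, hM4⟩ := competitor hB S'' (by omega)
    (fun u hu => hS'B u (hsub hu))
  have hM' : M' ∈ Fam n := ⟨by omega, hM2, hM3⟩
  have hbdd : BddBelow ((fun M : Finset (EuclideanSpace ℝ (Fin 2)) =>
      Metric.diam (M : Set (EuclideanSpace ℝ (Fin 2)))) '' Fam n) :=
    ⟨0, by rintro _ ⟨N, -, rfl⟩; exact Metric.diam_nonneg⟩
  have h0 : 0 ≤ dmin n := Real.sInf_nonneg (by rintro _ ⟨N, -, rfl⟩; exact Metric.diam_nonneg)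
  have h1 : dmin n ≤ 2 * ((X / C : ℕ) : ℝ) :=
    (csInf_le hbdd ⟨M', hM', rfl⟩).trans
      (Metric.diam_le_of_forall_dist_le (by positivity) fun R hR T hT => hM4 R hR T hT)
  have h2 : ((X / C : ℕ) : ℝ) * C ≤ 4 * D := by
    have h3 : ((X / C : ℕ) : ℝ) * C ≤ X := by exact_mod_cast Nat.div_mul_le_self X C
    exact h3.trans (Nat.floor_le (by positivity))
  have h4 : K * dmin n ≤ max K 1 * dmin n := mul_le_mul_of_nonneg_right (le_max_left _ _) h0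
  have hC0 : (0 : ℝ) < C := by linarith
  have h5 : max K 1 * dmin n * C < D * C := by
    have : dmin n * C ≤ 8 * D := by nlinarith
    nlinarith
  exact h4.trans_lt (lt_of_mul_lt_mul_right h5 hC0.le)

end Pool.Agent.Results.MP_22d5c4_co.LargeN
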